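import Pool.Agent.TH396.NV.Defs
import Pool.Agent.W607.OpenSep

/-!
# Separation of jets by the forms of a space: openness and injectivity
(job 5455 of helper396, written by helper626; after W607/OpenSep)
-/

set_option autoImplicit false

namespace Pool.Agent.TH396.NV

open MvPolynomial Pool.Agent.W607 Pool.Agent.H932R5

theorem SepU.exists_open_aux {N n s : ℕ} {I : Ideal (Fm N)} {ℓ : Fm N} {U : Submodule ℂ (Fm N)}
    {w0 : Fin n → Fin (N + 1) → ℂ} (h0 : SepU I ℓ U s w0) :
    ∃ H : MvPolynomial (Fin n × Fin (N + 1)) ℂ, eval (fun p => w0 p.1 p.2) H ≠ 0 ∧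
      ∀ w : Fin n → Fin (N + 1) → ℂ, eval (fun p => w p.1 p.2) H ≠ 0 → SepU I ℓ U s w := by
  classical
  let J : Ideal (MvPolynomial (Fin (N + 1)) ℂ) := I ⊔ Ideal.span {ℓ - 1}
  let Cn := Fin n × {α : Fin (N + 1) →₀ ℕ // α ∈ dg N s}
  let f0 : Cn → MvPolynomial (Fin (N + 1)) ℂ := fun j =>
    shift (fun i => - w0 j.1 i) (monomial j.2.1 1)
  have hf0 : ∀ j : Cn, shift (w0 j.1) (f0 j) = monomial j.2.1 1 := by
    intro j
    have h1 := shift_shift (fun i => - w0 j.1 i) (monomial j.2.1 (1 : ℂ))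
    simp only [neg_neg] at h1
    exact h1
  have hF : ∀ j : Cn, ∃ F : MvPolynomial (Fin (N + 1)) ℂ, F ∈ U ∧
      ∀ q', ∃ G ∈ J, F - G - (if q' = j.1 then f0 j else 0) ∈ (mw (w0 q')) ^ s := by
    intro j
    obtain ⟨F, hF, hF1, hF2⟩ := h0 j.1 (f0 j)
    refine ⟨F, hF, fun q' => ?_⟩
    by_cases hq : q' = j.1
    · rw [if_pos hq, hq]
      obtain ⟨G, hG, m, hm, hGm⟩ := Submodule.mem_sup.1 hF1
      refine ⟨G, hG, ?_⟩
      have : F - G - f0 j = m := by
        rw [sub_right_comm, ← hGm]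
        ring
      rw [this]
      exact hm
    · rw [if_neg hq]
      obtain ⟨G, hG, m, hm, hGm⟩ := Submodule.mem_sup.1 (hF2 q' hq)
      refine ⟨G, hG, ?_⟩
      have : F - G - 0 = m := by
        rw [← hGm]
        ring
      rw [this]
      exact hm
  choose F hFh G hG hFG using hF
  let A : Matrix Cn Cn (MvPolynomial (Fin n × Fin (N + 1)) ℂ) := fun j' j =>
    coeff j'.2.1 (gshift ℂ N n j'.1 (F j - G j j'.1))
  let ew : (Fin n → Fin (N + 1) → ℂ) → MvPolynomial (Fin n × Fin (N + 1)) ℂ →+* ℂ :=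
    fun w => eval (fun p => w p.1 p.2)
  have hA : ∀ (w : Fin n → Fin (N + 1) → ℂ) (j' j : Cn), ew w (A j' j) =
      coeff j'.2.1 (shift (w j'.1) (F j - G j j'.1)) := by
    intro w j' j
    rw [← map_gshift j'.1 w, coeff_map]
  have hdet : ∀ w, ew w A.det = ((ew w).mapMatrix A).det := fun w => RingHom.map_det _ _
  refine ⟨A.det, ?_, fun w hw => ?_⟩
  · have h1 : (ew w0).mapMatrix A = 1 := by
      ext j' j
      show ew w0 (A j' j) = _
      rw [hA, Matrix.one_apply]
      have h2 := mem_mw_pow_iff.1 (hFG j j'.1) j'.2.1 (mem_dg.1 j'.2.2)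
      rw [map_sub, coeff_sub, sub_eq_zero] at h2
      rw [h2]
      by_cases h3 : j' = j
      · rw [if_pos h3, h3, if_pos rfl, hf0, coeff_monomial, if_pos rfl]
      · rw [if_neg h3]
        by_cases h4 : j'.1 = j.1
        · rw [if_pos h4, h4, hf0, coeff_monomial, if_neg]
          intro h5
          exact h3 (Prod.ext h4 (Subtype.ext h5.symm))
        · rw [if_neg h4, map_zero, coeff_zero]
    show ew w0 A.det ≠ 0
    rw [hdet, h1, Matrix.det_one]
    exact one_ne_zero
  · have hu : IsUnit ((ew w).mapMatrix A).det := by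
      rw [← hdet]
      exact isUnit_iff_ne_zero.2 hw
    intro q f
    let T : Cn → ℂ := fun j' => if j'.1 = q then coeff j'.2.1 (shift (w q) f) else 0
    let c : Cn → ℂ := ((ew w).mapMatrix A)⁻¹.mulVec T
    have hc : ((ew w).mapMatrix A).mulVec c = T := by
      rw [Matrix.mulVec_mulVec, Matrix.mul_nonsing_inv _ hu, Matrix.one_mulVec]
    have hkey : ∀ q', (∑ j, C (c j) * F j) - (if q' = q then f else 0) ∈
        J ⊔ (mw (w q')) ^ s := by
      intro q'
      have h1 : (∑ j, C (c j) * F j) - (if q' = q then f else 0) =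
          (∑ j, C (c j) * G j q') +
            ((∑ j, C (c j) * (F j - G j q')) - (if q' = q then f else 0)) := by
        simp only [mul_sub, Finset.sum_sub_distrib]
        ring
      rw [h1]
      refine Submodule.add_mem_sup (Submodule.sum_mem _ fun j _ =>
        Ideal.mul_mem_left _ _ (hG j q')) ?_
      rw [mem_mw_pow_iff]
      intro α hα
      have h2 := congrFun hc ⟨q', ⟨α, mem_dg.2 hα⟩⟩
      simp only [Matrix.mulVec, dotProduct, RingHom.mapMatrix_apply, Matrix.map_apply, hA] at h2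
      rw [map_sub, coeff_sub, sub_eq_zero, map_sum, coeff_sum]
      have h3 : ∀ j, coeff α (shift (w q') (C (c j) * (F j - G j q'))) =
          coeff α (shift (w q') (F j - G j q')) * c j := by
        intro j
        rw [map_mul, shift_C, coeff_C_mul, mul_comm]
      simp only [h3]
      rw [h2]
      simp only [T]
      by_cases hq : q' = q
      · rw [if_pos hq, if_pos hq, hq]
      · rw [if_neg hq, if_neg hq, map_zero, coeff_zero]
    refine ⟨∑ j, C (c j) * F j, ?_, ?_, fun q' hq' => ?_⟩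
    · refine Submodule.sum_mem _ fun j _ => ?_
      rw [C_mul']
      exact U.smul_mem _ (hFh j)
    · have := hkey q
      rwa [if_pos rfl] at this
    · have := hkey q'
      rwa [if_neg hq', sub_zero] at this

theorem SepU.exists_open {N n s : ℕ} {I : Ideal (Fm N)} {ℓ : Fm N} {U : Submodule ℂ (Fm N)}
    (u : Fm N) {w0 : Fin n → Fin (N + 1) → ℂ} (h0 : SepU I ℓ U s w0)
    (hu0 : ∀ q, eval (w0 q) u ≠ 0) :
    ∃ H : MvPolynomial (Fin n × Fin (N + 1)) ℂ, eval (fun p => w0 p.1 p.2) H ≠ 0 ∧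
      ∀ w : Fin n → Fin (N + 1) → ℂ, eval (fun p => w p.1 p.2) H ≠ 0 →
        (∀ q, eval (w q) u ≠ 0) ∧ SepU I ℓ U s w := by
  classical
  obtain ⟨H, h1, h2⟩ := SepU.exists_open_aux h0
  have hr : ∀ (w : Fin n → Fin (N + 1) → ℂ) (q : Fin n),
      eval (fun p : Fin n × Fin (N + 1) => w p.1 p.2) (rename (fun i => (q, i)) u) =
        eval (w q) u := by
    intro w q
    rw [eval_rename]
    rfl
  refine ⟨H * ∏ q : Fin n, rename (fun i => (q, i)) u, ?_, fun w hw => ?_⟩
  · rw [map_mul, map_prod]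
    refine mul_ne_zero h1 (Finset.prod_ne_zero_iff.2 fun q _ => ?_)
    rw [hr]
    exact hu0 q
  · rw [map_mul, map_prod] at hw
    refine ⟨fun q => ?_, h2 w (left_ne_zero_of_mul hw)⟩
    have h3 := Finset.prod_ne_zero_iff.1 (right_ne_zero_of_mul hw) q (Finset.mem_univ q)
    rwa [hr] at h3

theorem SepU.injective {N n s : ℕ} {I : Ideal (Fm N)} {ℓ : Fm N} {U : Submodule ℂ (Fm N)}
    {w : Fin n → Fin (N + 1) → ℂ} (h : SepU I ℓ U s w) (hs : 1 ≤ s)
    (hw : ∀ q, eval (w q) ℓ = 1) (hI : ∀ q, ∀ f ∈ I, eval (w q) f = 0) :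
    Function.Injective w := by
  have key : ∀ q, ∀ g ∈ I ⊔ Ideal.span {ℓ - 1} ⊔ (mw (w q)) ^ s, eval (w q) g = 0 := by
    intro q g hg
    have hle : I ⊔ Ideal.span {ℓ - 1} ⊔ (mw (w q)) ^ s ≤ RingHom.ker (eval (w q)) := by
      refine sup_le (sup_le (fun f hf => hI q f hf) ?_) ?_
      · rw [Ideal.span_le, Set.singleton_subset_iff]
        show eval (w q) (ℓ - 1) = 0
        rw [map_sub, hw, map_one, sub_self]
      · refine (Ideal.pow_le_self (by omega)).trans ?_
        unfold mw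
        rw [Ideal.span_le]
        rintro _ ⟨i, rfl⟩
        show eval (w q) (X i - C (w q i)) = 0
        rw [map_sub, eval_X, eval_C, sub_self]
    exact hle hg
  intro q q' hqq
  by_contra hne
  obtain ⟨F, -, h1, h2⟩ := h q 1
  have h3 := key q _ h1
  have h4 := key q' _ (h2 q' (Ne.symm hne))
  rw [← hqq] at h4
  rw [map_sub, h4, map_one] at h3
  norm_num at h3

end Pool.Agent.TH396.NV
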